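import Mathlib
import Pool.Agent.Helper872.Sch.Base

set_option autoImplicit false
set_option linter.unusedSectionVars false

/-!
# Clarkson-type inequalities for `n`-tuples of operators

For operators `A_0, ..., A_{n-1}` in the Schatten class `S_p` and `1/p + 1/q = 1` put
`L = n (∑ ‖A_j‖_p^p)^(q/p)` and `R = ‖∑ A_j‖_p^q + ∑_{j<k} ‖A_j - A_k‖_p^q`.  Then `L ≤ R` for
`2 ≤ p < ∞` and `R ≤ L` for `1 < p ≤ 2`.

The matrix `T` of the map `(A_j) ↦ (∑ A_j, (A_j - A_k)_{j<k})` has entries `0, 1, -1` and satisfies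
`T* T = n`.  Hence `T` maps `ℓ¹(S₁)` to `ℓ^∞(S₁)` with norm `1` and `ℓ²(S₂)` to `ℓ²(S₂)` with norm
`√n`; the three lines theorem, applied to the pairing of a finite part of the singular value
decompositions of the `A_j` with finite rank test operators, gives the norm `n^(1/q)` from `ℓ^p(S_p)`
to `ℓ^q(S_p)` for `1 < p ≤ 2` (`star`, `V1`, `G2`), and duality gives the case `p ≥ 2` (`V2`, `G1`).
-/

open scoped InnerProductSpace
open Finset

namespace Pool.Agent.Results.MP_5deb6a_an.ClarksonTuples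

/-! ### The Hilbert space endpoint -/
section E2
variable {E : Type*} [NormedAddCommGroup E] [InnerProductSpace ℂ E]
variable {J M α β : Type*} [Fintype J] [Fintype M] [Fintype α] [Fintype β] [DecidableEq J]
  [DecidableEq M] [DecidableEq α] [DecidableEq β]

lemma nsq (v : E) : ((‖v‖ ^ 2 : ℝ) : ℂ) = ⟪v, v⟫_ℂ := by
  rw [inner_self_eq_norm_sq_to_K]; simp

/-- orthonormal on the fibres of `c` -/
def FibON (c : α → J) (U : α → E) : Prop :=
  ∀ a a', c a = c a' → ⟪U a, U a'⟫_ℂ = if a = a' then 1 else 0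

lemma norm_sq_fib {c : α → J} {U : α → E} (hU : FibON c U) (x : α → ℂ) (j : J) :
    ‖∑ a with c a = j, x a • U a‖ ^ 2 = ∑ a with c a = j, ‖x a‖ ^ 2 := by
  have h1 : ⟪∑ a with c a = j, x a • U a, ∑ a with c a = j, x a • U a⟫_ℂ =
      ((∑ a with c a = j, ‖x a‖ ^ 2 : ℝ) : ℂ) := by
    rw [sum_inner]
    simp only [inner_sum, inner_smul_left, inner_smul_right]
    push_cast
    refine Finset.sum_congr rfl fun a ha => ?_
    rw [Finset.sum_eq_single_of_mem a ha]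
    · rw [hU a a rfl, if_pos rfl, mul_one, Complex.mul_conj']
    · intro b hb hba
      rw [hU a b (by rw [(Finset.mem_filter.1 ha).2, (Finset.mem_filter.1 hb).2]),
        if_neg (Ne.symm hba)]
      simp
  rw [← nsq] at h1
  exact Complex.ofReal_injective h1

lemma sum_fib {c : α → J} (g : α → ℝ) : ∑ j, ∑ a with c a = j, g a = ∑ a, g a :=
  Finset.sum_fiberwise _ _ _

lemma sum_fibC {G : Type*} [AddCommMonoid G] {c : α → J} (g : α → G) :
    ∑ j, ∑ a with c a = j, g a = ∑ a, g a :=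
  Finset.sum_fiberwise _ _ _

/-- the `ℓ² → ℓ²` identity for vectors -/
lemma T_norm {n : ℝ} {T : M → J → ℂ}
    (hT : ∀ j j', ∑ m, (starRingEnd ℂ) (T m j) * T m j' = if j = j' then (n : ℂ) else 0)
    (X : J → E) : ∑ m, ‖∑ j, T m j • X j‖ ^ 2 = n * ∑ j, ‖X j‖ ^ 2 := by
  have h1 : ∀ m, ((‖∑ j, T m j • X j‖ ^ 2 : ℝ) : ℂ) =
      ∑ j, ∑ j', (starRingEnd ℂ) (T m j) * T m j' * ⟪X j, X j'⟫_ℂ := by
    intro m
    rw [nsq, sum_inner]
    simp only [inner_sum, inner_smul_left, inner_smul_right]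
    refine Finset.sum_congr rfl fun j _ => Finset.sum_congr rfl fun j' _ => by ring
  have h3 : ((∑ m, ‖∑ j, T m j • X j‖ ^ 2 : ℝ) : ℂ) = ((n * ∑ j, ‖X j‖ ^ 2 : ℝ) : ℂ) := by
    rw [Complex.ofReal_sum]
    simp only [h1]
    rw [Finset.sum_comm]
    push_cast
    rw [Finset.mul_sum]
    refine Finset.sum_congr rfl fun j _ => ?_
    rw [Finset.sum_comm]
    have : ∀ j', ∑ m, (starRingEnd ℂ) (T m j) * T m j' * ⟪X j, X j'⟫_ℂ =
        (if j = j' then (n : ℂ) else 0) * ⟪X j, X j'⟫_ℂ := by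
      intro j'
      rw [← Finset.sum_mul, hT]
    simp only [this]
    rw [Finset.sum_eq_single j]
    · rw [if_pos rfl, ← nsq]; push_cast; rfl
    · intro b _ hb; rw [if_neg (Ne.symm hb), zero_mul]
    · intro h; exact absurd (Finset.mem_univ _) h
  exact_mod_cast h3

lemma E2 {n : ℝ} {T : M → J → ℂ}
    (hT : ∀ j j', ∑ m, (starRingEnd ℂ) (T m j) * T m j' = if j = j' then (n : ℂ) else 0)
    {c : α → J} {m : β → M} {U : α → E} {V : β → E} (hU : FibON c U) (hV : FibON m V)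
    (x : α → ℂ) (y : β → ℂ) :
    ‖∑ b, ∑ a, y b * x a * (T (m b) (c a) * ⟪V b, U a⟫_ℂ)‖ ^ 2 ≤
      n * (∑ a, ‖x a‖ ^ 2) * ∑ b, ‖y b‖ ^ 2 := by
  set X : J → E := fun j => ∑ a with c a = j, x a • U a with hX
  set Y : M → E := fun i => ∑ b with m b = i, (starRingEnd ℂ) (y b) • V b with hY
  have hXn : ∑ j, ‖X j‖ ^ 2 = ∑ a, ‖x a‖ ^ 2 := by
    simp only [hX, norm_sq_fib hU]
    exact sum_fib _
  have hYn : ∑ i, ‖Y i‖ ^ 2 = ∑ b, ‖y b‖ ^ 2 := by
    simp only [hY, norm_sq_fib hV, RCLike.norm_conj]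
    exact sum_fib _
  have key : ∑ b, ∑ a, y b * x a * (T (m b) (c a) * ⟪V b, U a⟫_ℂ) =
      ∑ i, ⟪Y i, ∑ j, T i j • X j⟫_ℂ := by
    have e1 : ∀ i, ⟪Y i, ∑ j, T i j • X j⟫_ℂ =
        ∑ b with m b = i, ∑ a, y b * x a * (T (m b) (c a) * ⟪V b, U a⟫_ℂ) := by
      intro i
      simp only [hY, sum_inner, inner_smul_left, Complex.conj_conj]
      refine Finset.sum_congr rfl fun b hb => ?_
      rw [(Finset.mem_filter.1 hb).2]
      rw [inner_sum, Finset.mul_sum, ← sum_fibC (c := c)]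
      refine Finset.sum_congr rfl fun j _ => ?_
      simp only [hX, inner_smul_right, inner_sum, Finset.mul_sum]
      refine Finset.sum_congr rfl fun a ha => ?_
      rw [(Finset.mem_filter.1 ha).2]; ring
    simp only [e1]
    rw [sum_fibC]
  rw [key]
  have h1 : ‖∑ i, ⟪Y i, ∑ j, T i j • X j⟫_ℂ‖ ≤ ∑ i, ‖Y i‖ * ‖∑ j, T i j • X j‖ :=
    (norm_sum_le _ _).trans (Finset.sum_le_sum fun i _ => norm_inner_le_norm _ _)
  have h2 := Finset.sum_mul_sq_le_sq_mul_sq univ (fun i => ‖Y i‖) (fun i => ‖∑ j, T i j • X j‖)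
  rw [T_norm hT, hXn, hYn] at h2
  calc ‖∑ i, ⟪Y i, ∑ j, T i j • X j⟫_ℂ‖ ^ 2 ≤ (∑ i, ‖Y i‖ * ‖∑ j, T i j • X j‖) ^ 2 := by gcongr
    _ ≤ _ := h2
    _ = _ := by ring

end E2

section Coords
variable {H : Type*} [NormedAddCommGroup H] [InnerProductSpace ℂ H]

lemma exists_coords {γ : Type*} [Finite γ] (v : γ → H) : ∃ (N : ℕ) (w : Fin N → H),
    ∀ c c', ⟪v c, v c'⟫_ℂ = ∑ k, ⟪v c, w k⟫_ℂ * ⟪w k, v c'⟫_ℂ := by
  let W := Submodule.span ℂ (Set.range v)
  have : FiniteDimensional ℂ W := FiniteDimensional.span_of_finite ℂ (Set.finite_range v)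
  let B := stdOrthonormalBasis ℂ W
  refine ⟨_, fun k => (B k : H), fun c c' => ?_⟩
  have hc : v c ∈ W := Submodule.subset_span ⟨c, rfl⟩
  have hc' : v c' ∈ W := Submodule.subset_span ⟨c', rfl⟩
  have h := B.sum_inner_mul_inner ⟨v c, hc⟩ ⟨v c', hc'⟩
  simp only [Submodule.coe_inner] at h
  exact h.symm

variable {J M α β : Type*} [Fintype J] [Fintype M] [Fintype α] [Fintype β] [DecidableEq J]
  [DecidableEq M] [DecidableEq α] [DecidableEq β]

/-- the pairs `(f, e)`, `(b, a)` are realised by vectors of a Hilbert space -/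
lemma exists_HS {c : α → J} {m : β → M} {a b : α → H} {e f : β → H}
    (ha : FibON c a) (hb : FibON c b) (he : FibON m e) (hf : FibON m f) :
    ∃ (N : ℕ) (U : α → EuclideanSpace ℂ (Fin N × Fin N)) (V : β → EuclideanSpace ℂ (Fin N × Fin N)),
      FibON c U ∧ FibON m V ∧ ∀ i k, ⟪V k, U i⟫_ℂ = ⟪f k, b i⟫_ℂ * ⟪a i, e k⟫_ℂ := by
  obtain ⟨N, w, hw⟩ := exists_coords (Sum.elim (Sum.elim a b) (Sum.elim e f) : (α ⊕ α) ⊕ (β ⊕ β) → H)
  have haa : ∀ i i', ⟪a i, a i'⟫_ℂ = ∑ k, ⟪a i, w k⟫_ℂ * ⟪w k, a i'⟫_ℂ :=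
    fun i i' => hw (Sum.inl (Sum.inl i)) (Sum.inl (Sum.inl i'))
  have hbb : ∀ i i', ⟪b i, b i'⟫_ℂ = ∑ k, ⟪b i, w k⟫_ℂ * ⟪w k, b i'⟫_ℂ :=
    fun i i' => hw (Sum.inl (Sum.inr i)) (Sum.inl (Sum.inr i'))
  have hee : ∀ i i', ⟪e i, e i'⟫_ℂ = ∑ k, ⟪e i, w k⟫_ℂ * ⟪w k, e i'⟫_ℂ :=
    fun i i' => hw (Sum.inr (Sum.inl i)) (Sum.inr (Sum.inl i'))
  have hff : ∀ i i', ⟪f i, f i'⟫_ℂ = ∑ k, ⟪f i, w k⟫_ℂ * ⟪w k, f i'⟫_ℂ :=
    fun i i' => hw (Sum.inr (Sum.inr i)) (Sum.inr (Sum.inr i'))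
  have hfb : ∀ i i', ⟪f i, b i'⟫_ℂ = ∑ k, ⟪f i, w k⟫_ℂ * ⟪w k, b i'⟫_ℂ :=
    fun i i' => hw (Sum.inr (Sum.inr i)) (Sum.inl (Sum.inr i'))
  have hae : ∀ i i', ⟪a i, e i'⟫_ℂ = ∑ k, ⟪a i, w k⟫_ℂ * ⟪w k, e i'⟫_ℂ :=
    fun i i' => hw (Sum.inl (Sum.inl i)) (Sum.inr (Sum.inl i'))
  have prod : ∀ (F G : Fin N → ℂ), ∑ kl : Fin N × Fin N, F kl.1 * G kl.2 = (∑ k, F k) * ∑ l, G l := by
    intro F G
    rw [Fintype.sum_prod_type, Finset.sum_mul]
    exact Finset.sum_congr rfl fun k _ => by simp only [Finset.mul_sum]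
  refine ⟨N, fun i => WithLp.toLp 2 (fun kl => ⟪w kl.1, b i⟫_ℂ * ⟪a i, w kl.2⟫_ℂ),
    fun k => WithLp.toLp 2 (fun kl => ⟪w kl.1, f k⟫_ℂ * ⟪e k, w kl.2⟫_ℂ), ?_, ?_, ?_⟩
  · intro i i' hii
    rw [PiLp.inner_apply]
    simp only [RCLike.inner_apply, map_mul, inner_conj_symm]
    have : ∀ kl : Fin N × Fin N, ⟪w kl.1, b i'⟫_ℂ * ⟪a i', w kl.2⟫_ℂ * (⟪b i, w kl.1⟫_ℂ * ⟪w kl.2, a i⟫_ℂ)
        = (⟪b i, w kl.1⟫_ℂ * ⟪w kl.1, b i'⟫_ℂ) * (⟪a i', w kl.2⟫_ℂ * ⟪w kl.2, a i⟫_ℂ) := fun kl => by ring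
    simp only [this]
    rw [prod (fun k => ⟪b i, w k⟫_ℂ * ⟪w k, b i'⟫_ℂ) (fun k => ⟪a i', w k⟫_ℂ * ⟪w k, a i⟫_ℂ),
      ← hbb, ← haa, hb i i' hii, ha i' i hii.symm]
    by_cases h : i = i'
    · subst h; simp
    · rw [if_neg h]; simp
  · intro i i' hii
    rw [PiLp.inner_apply]
    simp only [RCLike.inner_apply, map_mul, inner_conj_symm]
    have : ∀ kl : Fin N × Fin N, ⟪w kl.1, f i'⟫_ℂ * ⟪e i', w kl.2⟫_ℂ * (⟪f i, w kl.1⟫_ℂ * ⟪w kl.2, e i⟫_ℂ)
        = (⟪f i, w kl.1⟫_ℂ * ⟪w kl.1, f i'⟫_ℂ) * (⟪e i', w kl.2⟫_ℂ * ⟪w kl.2, e i⟫_ℂ) := fun kl => by ring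
    simp only [this]
    rw [prod (fun k => ⟪f i, w k⟫_ℂ * ⟪w k, f i'⟫_ℂ) (fun k => ⟪e i', w k⟫_ℂ * ⟪w k, e i⟫_ℂ),
      ← hff, ← hee, hf i i' hii, he i' i hii.symm]
    by_cases h : i = i'
    · subst h; simp
    · rw [if_neg h]; simp
  · intro i k
    rw [PiLp.inner_apply]
    simp only [RCLike.inner_apply, map_mul, inner_conj_symm]
    have : ∀ kl : Fin N × Fin N, ⟪w kl.1, b i⟫_ℂ * ⟪a i, w kl.2⟫_ℂ * (⟪f k, w kl.1⟫_ℂ * ⟪w kl.2, e k⟫_ℂ)
        = (⟪f k, w kl.1⟫_ℂ * ⟪w kl.1, b i⟫_ℂ) * (⟪a i, w kl.2⟫_ℂ * ⟪w kl.2, e k⟫_ℂ) := fun kl => by ring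
    simp only [this]
    rw [prod (fun k' => ⟪f k, w k'⟫_ℂ * ⟪w k', b i⟫_ℂ) (fun k' => ⟪a i, w k'⟫_ℂ * ⟪w k', e k⟫_ℂ),
      ← hfb, ← hae]

/-- Bessel on a fibre -/
lemma bessel_fib {m : β → M} {f : β → H} (hf : FibON m f) (i : M) (v : H) :
    ∑ b with m b = i, ‖⟪f b, v⟫_ℂ‖ ^ 2 ≤ ‖v‖ ^ 2 := by
  have hon : Orthonormal ℂ (fun b : {b // m b = i} => f b) := by
    rw [orthonormal_iff_ite]
    rintro ⟨b, hb⟩ ⟨b', hb'⟩
    rw [hf b b' (by rw [hb, hb'])]
    simp [Subtype.mk.injEq]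
  have h := hon.sum_inner_products_le v (s := univ)
  rw [Finset.sum_subtype (univ.filter fun b => m b = i) (p := fun b => m b = i) (by simp)]
  exact h

lemma cs_fib {m : β → M} {e f : β → H} (he : FibON m e) (hf : FibON m f) (i : M) {u v : H}
    (hu : ‖u‖ ≤ 1) (hv : ‖v‖ ≤ 1) :
    ∑ b with m b = i, ‖⟪f b, u⟫_ℂ‖ * ‖⟪v, e b⟫_ℂ‖ ≤ 1 := by
  have h := Finset.sum_mul_sq_le_sq_mul_sq (univ.filter fun b => m b = i)
    (fun b => ‖⟪f b, u⟫_ℂ‖) (fun b => ‖⟪v, e b⟫_ℂ‖)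
  have h1 : ∑ b with m b = i, ‖⟪f b, u⟫_ℂ‖ ^ 2 ≤ 1 :=
    (bessel_fib hf i u).trans (by nlinarith [norm_nonneg u])
  have h2 : ∑ b with m b = i, ‖⟪v, e b⟫_ℂ‖ ^ 2 ≤ 1 := by
    simp only [norm_inner_symm v]
    exact (bessel_fib he i v).trans (by nlinarith [norm_nonneg v])
  have h0 : 0 ≤ ∑ b with m b = i, ‖⟪f b, u⟫_ℂ‖ ^ 2 := by positivity
  have h3 : (∑ b with m b = i, ‖⟪f b, u⟫_ℂ‖ * ‖⟪v, e b⟫_ℂ‖) ^ 2 ≤ 1 := by nlinarith
  have h4 : 0 ≤ ∑ b with m b = i, ‖⟪f b, u⟫_ℂ‖ * ‖⟪v, e b⟫_ℂ‖ := by positivity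
  nlinarith

lemma norm_fib {c : α → J} {a : α → H} (ha : FibON c a) (i : α) : ‖a i‖ ≤ 1 := by
  have h := ha i i rfl
  rw [if_pos rfl, ← nsq] at h
  have : ‖a i‖ ^ 2 = 1 := Complex.ofReal_injective (by rw [h]; simp)
  nlinarith [norm_nonneg (a i)]

/-- the `ℓ¹(S₁) → ℓ^∞(S₁)` endpoint -/
lemma E1 {T : M → J → ℂ} (hT1 : ∀ i j, ‖T i j‖ ≤ 1)
    {c : α → J} {m : β → M} {a b : α → H} {e f : β → H}
    (ha : FibON c a) (hb : FibON c b) (he : FibON m e) (hf : FibON m f)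
    (x : α → ℂ) (y : β → ℂ) (Y : M → ℝ) (hY : ∀ k, ‖y k‖ ≤ Y (m k)) (hY0 : ∀ i, 0 ≤ Y i) :
    ‖∑ k, ∑ i, y k * x i * (T (m k) (c i) * (⟪f k, b i⟫_ℂ * ⟪a i, e k⟫_ℂ))‖ ≤
      (∑ i, ‖x i‖) * ∑ i, Y i := by
  rw [Finset.sum_comm]
  refine (norm_sum_le _ _).trans ?_
  rw [Finset.sum_mul]
  refine Finset.sum_le_sum fun i _ => ?_
  rw [← sum_fibC (c := m)]
  refine (norm_sum_le _ _).trans ?_
  rw [Finset.mul_sum]
  refine Finset.sum_le_sum fun l _ => ?_
  calc ‖∑ k with m k = l, y k * x i * (T (m k) (c i) * (⟪f k, b i⟫_ℂ * ⟪a i, e k⟫_ℂ))‖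
      ≤ ∑ k with m k = l, ‖x i‖ * Y l * (‖⟪f k, b i⟫_ℂ‖ * ‖⟪a i, e k⟫_ℂ‖) := by
        refine (norm_sum_le _ _).trans (Finset.sum_le_sum fun k hk => ?_)
        have hk' := (Finset.mem_filter.1 hk).2
        rw [norm_mul, norm_mul, norm_mul, norm_mul]
        have h1 := hY k
        have h2 := hT1 (m k) (c i)
        have h3 := hY0 l
        rw [hk'] at h1
        calc ‖y k‖ * ‖x i‖ * (‖T (m k) (c i)‖ * (‖⟪f k, b i⟫_ℂ‖ * ‖⟪a i, e k⟫_ℂ‖))
            ≤ Y l * ‖x i‖ * (1 * (‖⟪f k, b i⟫_ℂ‖ * ‖⟪a i, e k⟫_ℂ‖)) := by gcongr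
          _ = _ := by ring
    _ = ‖x i‖ * Y l * ∑ k with m k = l, (‖⟪f k, b i⟫_ℂ‖ * ‖⟪a i, e k⟫_ℂ‖) := by
        rw [Finset.mul_sum]
    _ ≤ ‖x i‖ * Y l * 1 := by
        have := cs_fib he hf l (norm_fib hb i) (norm_fib ha i)
        have h0 := hY0 l
        gcongr
    _ = _ := by ring

end Coords

section Star
variable {H : Type*} [NormedAddCommGroup H] [InnerProductSpace ℂ H]
variable {J M α β : Type*} [Fintype J] [Fintype M] [Fintype α] [Fintype β] [DecidableEq J]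
  [DecidableEq M] [DecidableEq α] [DecidableEq β]

lemma norm_exp_re (w : ℂ) : ‖Complex.exp w‖ = Real.exp w.re := Complex.norm_exp w

/-- The interpolated inequality for finite singular systems. -/
lemma star {n : ℝ} (hn : 0 ≤ n) {p q : ℝ} (hp : 1 < p) (hp2 : p ≤ 2) (hpq : 1 / p + 1 / q = 1)
    {T : M → J → ℂ} (hT1 : ∀ i j, ‖T i j‖ ≤ 1)
    (hT : ∀ j j', ∑ m, (starRingEnd ℂ) (T m j) * T m j' = if j = j' then (n : ℂ) else 0)
    {c : α → J} {m : β → M} {a b : α → H} {e f : β → H}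
    (ha : FibON c a) (hb : FibON c b) (he : FibON m e) (hf : FibON m f)
    {s : α → ℝ} {t : β → ℝ} (hs : ∀ i, 0 < s i) (ht : ∀ k, 0 < t k) :
    ‖∑ k, ∑ i, (t k : ℂ) * s i * (T (m k) (c i) * (⟪f k, b i⟫_ℂ * ⟪a i, e k⟫_ℂ))‖ ≤
      n ^ (1 / q) * (∑ i, s i ^ p) ^ (1 / p) *
        (∑ i, (∑ k with m k = i, t k ^ q) ^ (p / q)) ^ (1 / p) := by
  have hp0 : 0 < p := by linarith
  have hq1 : 1 / q = 1 - 1 / p := by linarith
  have hip : 1 / p < 1 := by rw [div_lt_one hp0]; exact hp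
  have hip2 : 1 / 2 ≤ 1 / p := one_div_le_one_div_of_le hp0 hp2
  have hiq : 0 < 1 / q := by rw [hq1]; linarith
  have hq0 : 0 < q := by
    by_contra h
    push Not at h
    have : 1 / q ≤ 0 := div_nonpos_of_nonneg_of_nonpos zero_le_one h
    linarith
  have hiq2 : 1 / q ≤ 1 / 2 := by rw [hq1]; linarith
  have hq2 : 2 ≤ q := by
    rw [div_le_div_iff₀ hq0 (by norm_num)] at hiq2; linarith
  have hpq' : p * (1 - 1 / q) = 1 := by rw [hq1]; field_simp; ring
  -- fibre norms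
  set τ : M → ℝ := fun i => (∑ k with m k = i, t k ^ q) ^ (1 / q) with hτ
  have htq : ∀ k, 0 < t k ^ q := fun k => Real.rpow_pos_of_pos (ht k) q
  have hsum0 : ∀ i, 0 ≤ ∑ k with m k = i, t k ^ q :=
    fun i => Finset.sum_nonneg fun k _ => (htq k).le
  have hτ0 : ∀ i, 0 ≤ τ i := fun i => Real.rpow_nonneg (hsum0 i) _
  have hτpos : ∀ k, 0 < τ (m k) := by
    intro k
    simp only [hτ]
    refine Real.rpow_pos_of_pos ?_ _
    exact (htq k).trans_le (Finset.single_le_sum (f := fun k => t k ^ q)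
      (fun k _ => (htq k).le) (Finset.mem_filter.2 ⟨Finset.mem_univ k, rfl⟩))
  have hτq : ∀ i, τ i ^ q = ∑ k with m k = i, t k ^ q := by
    intro i
    simp only [hτ]
    rw [← Real.rpow_mul (hsum0 i), one_div, inv_mul_cancel₀ hq0.ne', Real.rpow_one]
  have hτp : ∀ i, τ i ^ p = (∑ k with m k = i, t k ^ q) ^ (p / q) := by
    intro i
    simp only [hτ]
    rw [← Real.rpow_mul (hsum0 i)]
    congr 1; ring
  simp only [← hτp]
  set S := ∑ i, s i ^ p with hS
  set W := ∑ i, τ i ^ p with hW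
  have hS0 : 0 ≤ S := Finset.sum_nonneg fun i _ => Real.rpow_nonneg (hs i).le _
  have hW0 : 0 ≤ W := Finset.sum_nonneg fun i _ => Real.rpow_nonneg (hτ0 i) _
  -- analytic families
  set xf : α → ℂ → ℂ := fun i z => Complex.exp ((Real.log (s i) : ℂ) * (p * (1 - z / 2))) with hxf
  set yf : β → ℂ → ℂ := fun k z => Complex.exp ((Real.log (τ (m k)) : ℂ) * (p * (1 - z / 2) - q * z / 2)
    + (Real.log (t k) : ℂ) * (q * z / 2)) with hyf
  set κ : β → α → ℂ := fun k i => T (m k) (c i) * (⟪f k, b i⟫_ℂ * ⟪a i, e k⟫_ℂ) with hκ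
  set F : ℂ → ℂ := fun z => ∑ k, ∑ i, yf k z * xf i z * κ k i with hF
  have hxn : ∀ i z, ‖xf i z‖ = s i ^ (p * (1 - z.re / 2)) := by
    intro i z
    simp only [hxf]
    rw [Complex.norm_exp, Real.rpow_def_of_pos (hs i)]
    congr 1
    simp [Complex.mul_re, Complex.sub_re]
  have hyn : ∀ k z, ‖yf k z‖ = τ (m k) ^ (p * (1 - z.re / 2) - q * z.re / 2) *
      t k ^ (q * z.re / 2) := by
    intro k z
    simp only [hyf]
    rw [Complex.norm_exp, Real.rpow_def_of_pos (hτpos k), Real.rpow_def_of_pos (ht k),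
      ← Real.exp_add]
    congr 1
    simp [Complex.mul_re, Complex.sub_re]
  -- endpoint 0
  have h0 : ∀ z : ℂ, z.re = 0 → ‖F z‖ ≤ S * W := by
    intro z hz
    refine (E1 hT1 ha hb he hf (fun i => xf i z) (fun k => yf k z) (fun i => τ i ^ p) ?_ ?_).trans ?_
    · intro k
      rw [hyn, hz]; simp
    · intro i; exact Real.rpow_nonneg (hτ0 i) _
    · have : ∑ i, ‖xf i z‖ = S := by
        simp only [hxn, hz, hS]; simp
      rw [this]
  -- endpoint 1
  obtain ⟨N, U, V, hU, hV, hUV⟩ := exists_HS ha hb he hf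
  have h1 : ∀ z : ℂ, z.re = 1 → ‖F z‖ ≤ (n * (S * W)) ^ (1 / 2 : ℝ) := by
    intro z hz
    have h := E2 hT hU hV (fun i => xf i z) (fun k => yf k z)
    simp only [hUV] at h
    have hx : ∑ i, ‖xf i z‖ ^ 2 = S := by
      rw [hS]
      refine Finset.sum_congr rfl fun i _ => ?_
      rw [hxn, hz, ← Real.rpow_natCast, ← Real.rpow_mul (hs i).le]
      congr 1; push_cast; ring
    have hy : ∑ k, ‖yf k z‖ ^ 2 ≤ W := by
      rw [hW, ← sum_fibC (c := m)]
      refine Finset.sum_le_sum fun i _ => ?_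
      have : ∑ k with m k = i, ‖yf k z‖ ^ 2 = τ i ^ (p - q) * ∑ k with m k = i, t k ^ q := by
        rw [Finset.mul_sum]
        refine Finset.sum_congr rfl fun k hk => ?_
        rw [hyn, hz, mul_pow, (Finset.mem_filter.1 hk).2, ← Real.rpow_natCast, ← Real.rpow_natCast,
          ← Real.rpow_mul (hτ0 i), ← Real.rpow_mul (ht k).le]
        congr 2 <;> push_cast <;> ring
      rw [this, ← hτq]
      rcases (hτ0 i).eq_or_lt with h' | h'
      · rw [← h', Real.zero_rpow hq0.ne', Real.zero_rpow hp0.ne', mul_zero]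
      · rw [← Real.rpow_add h']
        exact le_of_eq (by congr 1; ring)
    rw [hx] at h
    have h2 : ‖F z‖ ^ 2 ≤ n * (S * W) := by
      refine h.trans ?_
      rw [mul_assoc]
      gcongr
    rw [← Real.sqrt_eq_rpow]
    exact Real.le_sqrt_of_sq_le h2
  -- regularity
  have hdiff : Differentiable ℂ F := by
    intro z
    simp only [hF, hxf, hyf]
    fun_prop
  have hbdd : BddAbove ((norm ∘ F) '' Complex.HadamardThreeLines.verticalClosedStrip 0 1) := by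
    refine ⟨∑ k, ∑ i, (Real.exp (|Real.log (τ (m k))| * (p + q) + |Real.log (t k)| * q) *
      Real.exp (|Real.log (s i)| * p)) * ‖κ k i‖, ?_⟩
    rintro _ ⟨z, hz, rfl⟩
    have hz0 : 0 ≤ z.re := hz.1
    have hz1 : z.re ≤ 1 := hz.2
    simp only [Function.comp]
    refine (norm_sum_le _ _).trans (Finset.sum_le_sum fun k _ => ?_)
    refine (norm_sum_le _ _).trans (Finset.sum_le_sum fun i _ => ?_)
    rw [norm_mul, norm_mul, hxn, hyn, Real.rpow_def_of_pos (hs i), Real.rpow_def_of_pos (hτpos k),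
      Real.rpow_def_of_pos (ht k), ← Real.exp_add]
    have hA : ∀ {u v B : ℝ}, |v| ≤ B → u * v ≤ |u| * B := by
      intro u v B hv
      calc u * v ≤ |u * v| := le_abs_self _
        _ = |u| * |v| := abs_mul _ _
        _ ≤ |u| * B := by gcongr
    have e1 : Real.log (s i) * (p * (1 - z.re / 2)) ≤ |Real.log (s i)| * p := by
      refine hA ?_
      rw [abs_le]; constructor <;> nlinarith
    have e2 : Real.log (τ (m k)) * (p * (1 - z.re / 2) - q * z.re / 2) ≤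
        |Real.log (τ (m k))| * (p + q) := by
      refine hA ?_
      rw [abs_le]; constructor <;> nlinarith
    have e3 : Real.log (t k) * (q * z.re / 2) ≤ |Real.log (t k)| * q := by
      refine hA ?_
      rw [abs_le]; constructor <;> nlinarith
    gcongr
  -- three lines
  have hθ : ((2 / q : ℝ) : ℂ) ∈ Complex.HadamardThreeLines.verticalClosedStrip 0 1 := by
    refine ⟨?_, ?_⟩
    · simp only [Complex.ofReal_re]; positivity
    · simp only [Complex.ofReal_re]; rw [div_le_one hq0]; exact hq2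
  have h3 := Complex.HadamardThreeLines.norm_le_interp_of_mem_verticalClosedStrip₀₁' F hθ
    hdiff.diffContOnCl hbdd (fun z hz => h0 z hz) (fun z hz => h1 z hz)
  have hFθ : F ((2 / q : ℝ) : ℂ) = ∑ k, ∑ i, (t k : ℂ) * s i * κ k i := by
    simp only [hF]
    refine Finset.sum_congr rfl fun k _ => Finset.sum_congr rfl fun i _ => ?_
    have hqc : (q : ℂ) ≠ 0 := by exact_mod_cast hq0.ne'
    have hpc : (p : ℂ) * (1 - ((2 / q : ℝ) : ℂ) / 2) = 1 := by
      have : ((p * (1 - 1 / q) : ℝ) : ℂ) = 1 := by rw [hpq']; simp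
      refine Eq.trans ?_ this
      push_cast; ring
    have hqc' : (q : ℂ) * ((2 / q : ℝ) : ℂ) / 2 = 1 := by push_cast; field_simp
    have ex : xf i ((2 / q : ℝ) : ℂ) = s i := by
      simp only [hxf]
      rw [hpc, mul_one, ← Complex.ofReal_exp, Real.exp_log (hs i)]
    have ey : yf k ((2 / q : ℝ) : ℂ) = t k := by
      simp only [hyf]
      rw [hpc, hqc', sub_self, mul_zero, zero_add, mul_one, ← Complex.ofReal_exp,
        Real.exp_log (ht k)]
    rw [ex, ey]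
  rw [hFθ] at h3
  refine h3.trans (le_of_eq ?_)
  simp only [Complex.ofReal_re]
  have hSW : 0 ≤ S * W := mul_nonneg hS0 hW0
  rw [← Real.rpow_mul (by positivity), show (1 / 2 : ℝ) * (2 / q) = 1 / q by field_simp,
    Real.mul_rpow hn hSW]
  have e1 : (S * W) ^ (1 - 2 / q) * (n ^ (1 / q) * (S * W) ^ (1 / q)) =
      n ^ (1 / q) * (S * W) ^ (1 / p) := by
    rcases hSW.eq_or_lt with h' | h'
    · rw [← h', Real.zero_rpow (one_div_pos.2 hp0).ne', Real.zero_rpow hiq.ne']; simp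
    · have : (S * W) ^ (1 - 2 / q) * (S * W) ^ (1 / q) = (S * W) ^ (1 / p) := by
        rw [← Real.rpow_add h']
        congr 1
        have : 2 / q = 2 * (1 / q) := by ring
        rw [this, hq1]; ring
      rw [← this]; ring
  rw [e1, Real.mul_rpow hS0 hW0]; ring

end Star

section Op
open Pool.Agent.Helper872.Sch Filter Topology
universe u
variable {H : Type u} [NormedAddCommGroup H] [InnerProductSpace ℂ H] [CompleteSpace H]

/-- a singular value decomposition -/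
lemma sing_data (A : H →L[ℂ] H) (hA : IsCompactOperator A) :
    ∃ (κ : Type u) (e f : κ → H) (σ : κ → ℝ), Orthonormal ℂ e ∧ Orthonormal ℂ f ∧
      (∀ k, 0 < σ k) ∧ (∀ k, A (e k) = (σ k : ℂ) • f k) ∧
      (∀ x y, HasSum (fun k => (σ k : ℂ) * (⟪y, f k⟫_ℂ * ⟪e k, x⟫_ℂ)) ⟪y, A x⟫_ℂ) ∧
      ∀ p : ℝ, 0 < p → trPow p A = ∑' k, ENNReal.ofReal (σ k ^ p) := by
  have hc : IsCompactOperator (ContinuousLinearMap.adjoint A ∘L A) := compact_star_mul hA
  obtain ⟨ι, b, hb⟩ := exists_singBasis A hc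
  refine ⟨{k // A (b k) ≠ 0}, fun k => b k, fun k => lsv b A k, fun k => ‖A (b k)‖,
    b.orthonormal.comp _ Subtype.val_injective, lsv_orthonormal hb, ?_, ?_, ?_, ?_⟩
  · rintro ⟨k, hk⟩; exact norm_pos_iff.2 hk
  · rintro ⟨k, hk⟩; exact lsv_spec b A k
  · intro x y
    have h1 := ((b.hasSum_repr x).mapL A).mapL (innerSL ℂ y)
    have h2 : HasSum (fun k => ⟪b k, x⟫_ℂ * ⟪y, A (b k)⟫_ℂ) ⟪y, A x⟫_ℂ := by
      simpa [HilbertBasis.repr_apply_apply] using h1
    have h3 : Function.support (fun k => ⟪b k, x⟫_ℂ * ⟪y, A (b k)⟫_ℂ) ⊆ {k | A (b k) ≠ 0} := by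
      intro k hk h0
      apply hk
      simp [h0]
    rw [← hasSum_subtype_iff_of_support_subset h3] at h2
    refine h2.congr_fun ?_
    rintro ⟨k, hk⟩
    simp only [Function.comp]
    conv_rhs => rw [lsv_spec b A k]
    rw [inner_smul_right]; ring
  · intro p hp
    rw [trPow_eq hb hc hp]
    have h1 : Function.support (fun k => ‖A (b k)‖ₑ ^ p) ⊆ {k | A (b k) ≠ 0} := by
      intro k hk h0
      apply hk
      simp [h0, ENNReal.zero_rpow_of_pos hp]
    rw [← tsum_subtype_eq_of_support_subset h1]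
    refine tsum_congr ?_
    rintro ⟨k, hk⟩
    rw [← ofReal_norm, ENNReal.ofReal_rpow_of_nonneg (norm_nonneg _) hp.le]

lemma lim_fam {J : Type*} [Fintype J] {κ : J → Type*} {g : ∀ j, κ j → ℂ} {S : J → ℂ}
    (hg : ∀ j, HasSum (g j) (S j)) {C : ℝ}
    (h : ∀ F : ∀ j, Finset (κ j), ‖∑ j, ∑ k ∈ F j, g j k‖ ≤ C) : ‖∑ j, S j‖ ≤ C := by
  have ht : Tendsto (fun F : ∀ j, Finset (κ j) => ∑ j, ∑ k ∈ F j, g j k)
      (Filter.pi fun j => (atTop : Filter (Finset (κ j)))) (𝓝 (∑ j, S j)) := by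
    refine tendsto_finsetSum _ fun j _ => ?_
    have h1 : Tendsto (fun s : Finset (κ j) => ∑ k ∈ s, g j k) atTop (𝓝 (S j)) := by
      have := hg j
      rwa [HasSum, SummationFilter.unconditional_filter] at this
    exact h1.comp (Filter.tendsto_eval_pi _ j)
  exact le_of_tendsto ht.norm (Eventually.of_forall h)

variable {J M : Type*} [Fintype J] [Fintype M] [DecidableEq J] [DecidableEq M]

lemma fib_sigma {κ : J → Type*} [∀ j, DecidableEq (κ j)] {F : ∀ j, Finset (κ j)} {v : ∀ j, κ j → H}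
    (hv : ∀ j, Orthonormal ℂ (v j)) :
    FibON (fun x : (Σ j, {k // k ∈ F j}) => x.1) (fun x => v x.1 x.2) := by
  rintro ⟨j, k⟩ ⟨j', k'⟩ h
  obtain rfl : j = j' := h
  have := (orthonormal_iff_ite.1 (hv j)) k k'
  simp only [this]
  by_cases hk : (k : κ j) = k'
  · have : k = k' := Subtype.ext hk
    subst this; simp
  · have h2 : ¬ ((⟨j, k⟩ : Σ j, {k // k ∈ F j}) = ⟨j, k'⟩) := by
      intro h; apply hk
      have := eq_of_heq (Sigma.mk.inj h).2
      rw [this]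
    rw [if_neg hk, if_neg h2]

lemma sum_sigma' {G : Type*} [AddCommMonoid G] {κ : J → Type*} (F : ∀ j, Finset (κ j))
    (g : ∀ j, κ j → G) :
    ∑ x : (Σ j, {k // k ∈ F j}), g x.1 x.2 = ∑ j, ∑ k ∈ F j, g j k := by
  rw [Fintype.sum_sigma]
  exact Finset.sum_congr rfl fun j _ => Finset.sum_coe_sort (F j) (g j)

/-- finite tests against operators, first form -/
lemma V1 {n : ℝ} (hn : 0 ≤ n) {p q : ℝ} (hp : 1 < p) (hp2 : p ≤ 2) (hpq : 1 / p + 1 / q = 1)
    {T : M → J → ℂ} (hT1 : ∀ i j, ‖T i j‖ ≤ 1)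
    (hT : ∀ j j', ∑ m, (starRingEnd ℂ) (T m j) * T m j' = if j = j' then (n : ℂ) else 0)
    (A : J → H →L[ℂ] H) (hA : ∀ j, IsCompactOperator (A j)) (hAp : ∀ j, trPow p (A j) ≠ ⊤)
    {β : Type*} [Fintype β] [DecidableEq β] {m : β → M} {e f : β → H}
    (he : FibON m e) (hf : FibON m f) {t : β → ℝ} (ht : ∀ k, 0 < t k) :
    ‖∑ k, (t k : ℂ) * ⟪f k, (∑ j, T (m k) j • A j) (e k)⟫_ℂ‖ ≤
      n ^ (1 / q) * (∑ j, (trPow p (A j)).toReal) ^ (1 / p) *
        (∑ i, (∑ k with m k = i, t k ^ q) ^ (p / q)) ^ (1 / p) := by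
  classical
  have hp0 : 0 < p := by linarith
  choose κ a b s ha hb hs hAe hsum htr using fun j => sing_data (A j) (hA j)
  have hsp : ∀ j k, 0 ≤ s j k ^ p := fun j k => Real.rpow_nonneg (hs j k).le _
  -- partial sums of the traces
  have hpart : ∀ (F : ∀ j, Finset (κ j)) j, ∑ k ∈ F j, s j k ^ p ≤ (trPow p (A j)).toReal := by
    intro F j
    have h1 : ENNReal.ofReal (∑ k ∈ F j, s j k ^ p) ≤ trPow p (A j) := by
      rw [ENNReal.ofReal_sum_of_nonneg fun k _ => hsp j k, htr j p hp0]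
      exact ENNReal.sum_le_tsum _
    exact (ENNReal.ofReal_le_iff_le_toReal (hAp j)).1 h1
  have hsumg : ∀ j, HasSum (fun k => ∑ l, (t l : ℂ) * (T (m l) j * ((s j k : ℂ) *
      (⟪f l, b j k⟫_ℂ * ⟪a j k, e l⟫_ℂ)))) (∑ l, (t l : ℂ) * (T (m l) j * ⟪f l, A j (e l)⟫_ℂ)) := by
    intro j
    refine hasSum_sum fun l _ => ?_
    exact ((hsum j (e l) (f l)).mul_left _).mul_left _
  have hlim := lim_fam hsumg (C := n ^ (1 / q) * (∑ j, (trPow p (A j)).toReal) ^ (1 / p) *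
        (∑ i, (∑ k with m k = i, t k ^ q) ^ (p / q)) ^ (1 / p)) ?_
  · have e1 : ∑ k, (t k : ℂ) * ⟪f k, (∑ j, T (m k) j • A j) (e k)⟫_ℂ =
        ∑ j, ∑ l, (t l : ℂ) * (T (m l) j * ⟪f l, A j (e l)⟫_ℂ) := by
      rw [Finset.sum_comm]
      refine Finset.sum_congr rfl fun k _ => ?_
      rw [_root_.sum_apply, inner_sum, Finset.mul_sum]
      refine Finset.sum_congr rfl fun j _ => ?_
      rw [_root_.smul_apply, inner_smul_right]
    rw [e1]; exact hlim
  · intro F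
    have hst := star (α := Σ j, {k // k ∈ F j}) hn hp hp2 hpq hT1 hT (c := fun x => x.1) (m := m)
      (fib_sigma ha) (fib_sigma hb) he hf (s := fun x => s x.1 x.2) (t := t) (fun x => hs _ _) ht
    have e1 : ∑ j, ∑ k ∈ F j, ∑ l, (t l : ℂ) * (T (m l) j * ((s j k : ℂ) *
        (⟪f l, b j k⟫_ℂ * ⟪a j k, e l⟫_ℂ))) =
        ∑ l, ∑ x : (Σ j, {k // k ∈ F j}), (t l : ℂ) * (s x.1 x.2 : ℂ) * (T (m l) x.1 *
          (⟪f l, b x.1 x.2⟫_ℂ * ⟪a x.1 x.2, e l⟫_ℂ)) := by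
      rw [← sum_sigma' F (fun j k => ∑ l, (t l : ℂ) * (T (m l) j * ((s j k : ℂ) *
        (⟪f l, b j k⟫_ℂ * ⟪a j k, e l⟫_ℂ)))), Finset.sum_comm]
      refine Finset.sum_congr rfl fun l _ => Finset.sum_congr rfl fun x _ => by ring
    rw [e1]
    refine hst.trans ?_
    have e2 : ∑ x : (Σ j, {k // k ∈ F j}), s x.1 x.2 ^ p = ∑ j, ∑ k ∈ F j, s j k ^ p :=
      sum_sigma' F (fun j k => s j k ^ p)
    rw [e2]
    have h0 : 0 ≤ ∑ j, ∑ k ∈ F j, s j k ^ p :=
      Finset.sum_nonneg fun j _ => Finset.sum_nonneg fun k _ => hsp j k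
    have h1 : ∑ j, ∑ k ∈ F j, s j k ^ p ≤ ∑ j, (trPow p (A j)).toReal :=
      Finset.sum_le_sum fun j _ => hpart F j
    have hW : 0 ≤ (∑ i, (∑ k with m k = i, t k ^ q) ^ (p / q)) ^ (1 / p) := by
      refine Real.rpow_nonneg (Finset.sum_nonneg fun i _ => Real.rpow_nonneg
        (Finset.sum_nonneg fun k _ => Real.rpow_nonneg (ht k).le _) _) _
    gcongr

/-- finite tests against operators, second form -/
lemma V2 {n : ℝ} (hn : 0 ≤ n) {p q : ℝ} (hp : 1 < p) (hp2 : p ≤ 2) (hpq : 1 / p + 1 / q = 1)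
    {T : M → J → ℂ} (hT1 : ∀ i j, ‖T i j‖ ≤ 1)
    (hT : ∀ j j', ∑ m, (starRingEnd ℂ) (T m j) * T m j' = if j = j' then (n : ℂ) else 0)
    (B : M → H →L[ℂ] H) (hB : ∀ i, IsCompactOperator (B i)) (hBq : ∀ i, trPow q (B i) ≠ ⊤)
    {α : Type*} [Fintype α] [DecidableEq α] {c : α → J} {a b : α → H}
    (ha : FibON c a) (hb : FibON c b) {s : α → ℝ} (hs : ∀ k, 0 < s k) :
    ‖∑ k, (s k : ℂ) * ∑ i, T i (c k) * ⟪B i (a k), b k⟫_ℂ‖ ≤
      n ^ (1 / q) * (∑ k, s k ^ p) ^ (1 / p) *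
        (∑ i, (trPow q (B i)).toReal ^ (p / q)) ^ (1 / p) := by
  classical
  have hp0 : 0 < p := by linarith
  have hq1 : 1 / q = 1 - 1 / p := by linarith
  have hiq : 0 < 1 / q := by
    rw [hq1, sub_pos, div_lt_one hp0]; exact hp
  have hq0 : 0 < q := by
    by_contra h
    push Not at h
    have : 1 / q ≤ 0 := div_nonpos_of_nonneg_of_nonpos zero_le_one h
    linarith
  choose κ e f t he hf ht hBe hsum htr using fun i => sing_data (B i) (hB i)
  have htp : ∀ i k, 0 ≤ t i k ^ q := fun i k => Real.rpow_nonneg (ht i k).le _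
  have hpart : ∀ (G : ∀ i, Finset (κ i)) i, ∑ k ∈ G i, t i k ^ q ≤ (trPow q (B i)).toReal := by
    intro G i
    have h1 : ENNReal.ofReal (∑ k ∈ G i, t i k ^ q) ≤ trPow q (B i) := by
      rw [ENNReal.ofReal_sum_of_nonneg fun k _ => htp i k, htr i q hq0]
      exact ENNReal.sum_le_tsum _
    exact (ENNReal.ofReal_le_iff_le_toReal (hBq i)).1 h1
  have hconj : ∀ i (x y : H), HasSum (fun k => (t i k : ℂ) * (⟪f i k, y⟫_ℂ * ⟪x, e i k⟫_ℂ))
      ⟪B i x, y⟫_ℂ := by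
    intro i x y
    have h := (hsum i x y).star
    simp only [star_mul', RCLike.star_def, inner_conj_symm, Complex.conj_ofReal] at h
    exact h
  have hsumg : ∀ i, HasSum (fun k => ∑ l, (s l : ℂ) * (T i (c l) * ((t i k : ℂ) *
      (⟪f i k, b l⟫_ℂ * ⟪a l, e i k⟫_ℂ)))) (∑ l, (s l : ℂ) * (T i (c l) * ⟪B i (a l), b l⟫_ℂ)) := by
    intro i
    refine hasSum_sum fun l _ => ?_
    exact ((hconj i (a l) (b l)).mul_left _).mul_left _
  have hlim := lim_fam hsumg (C := n ^ (1 / q) * (∑ k, s k ^ p) ^ (1 / p) *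
        (∑ i, (trPow q (B i)).toReal ^ (p / q)) ^ (1 / p)) ?_
  · have e1 : ∑ k, (s k : ℂ) * ∑ i, T i (c k) * ⟪B i (a k), b k⟫_ℂ =
        ∑ i, ∑ l, (s l : ℂ) * (T i (c l) * ⟪B i (a l), b l⟫_ℂ) := by
      rw [Finset.sum_comm]
      refine Finset.sum_congr rfl fun k _ => ?_
      rw [Finset.mul_sum]
    rw [e1]; exact hlim
  · intro G
    have hst := star (β := Σ i, {k // k ∈ G i}) hn hp hp2 hpq hT1 hT (c := c) (m := fun x => x.1)
      ha hb (fib_sigma he) (fib_sigma hf) (s := s) (t := fun x => t x.1 x.2) hs (fun x => ht _ _)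
    have e1 : ∑ i, ∑ k ∈ G i, ∑ l, (s l : ℂ) * (T i (c l) * ((t i k : ℂ) *
        (⟪f i k, b l⟫_ℂ * ⟪a l, e i k⟫_ℂ))) =
        ∑ x : (Σ i, {k // k ∈ G i}), ∑ l, (t x.1 x.2 : ℂ) * (s l : ℂ) * (T x.1 (c l) *
          (⟪f x.1 x.2, b l⟫_ℂ * ⟪a l, e x.1 x.2⟫_ℂ)) := by
      rw [← sum_sigma' G (fun i k => ∑ l, (s l : ℂ) * (T i (c l) * ((t i k : ℂ) *
        (⟪f i k, b l⟫_ℂ * ⟪a l, e i k⟫_ℂ))))]
      refine Finset.sum_congr rfl fun x _ => Finset.sum_congr rfl fun l _ => by ring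
    rw [e1]
    refine hst.trans ?_
    have e2 : ∀ i, ∑ x : (Σ i, {k // k ∈ G i}) with x.1 = i, t x.1 x.2 ^ q =
        ∑ k ∈ G i, t i k ^ q := by
      intro i
      rw [Finset.sum_filter]
      have h1 := sum_sigma' G (fun i' k => if i' = i then t i' k ^ q else 0)
      rw [h1, Finset.sum_eq_single i]
      · simp
      · intro i' _ hi'
        refine Finset.sum_eq_zero fun k _ => by rw [if_neg hi']
      · intro h; exact absurd (Finset.mem_univ _) h
    simp only [e2]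
    have h1 : ∑ i, (∑ k ∈ G i, t i k ^ q) ^ (p / q) ≤ ∑ i, (trPow q (B i)).toReal ^ (p / q) :=
      Finset.sum_le_sum fun i _ => Real.rpow_le_rpow
        (Finset.sum_nonneg fun k _ => htp i k) (hpart G i) (by positivity)
    have h0 : 0 ≤ ∑ i, (∑ k ∈ G i, t i k ^ q) ^ (p / q) :=
      Finset.sum_nonneg fun i _ => Real.rpow_nonneg (Finset.sum_nonneg fun k _ => htp i k) _
    have hS : 0 ≤ (∑ k, s k ^ p) ^ (1 / p) :=
      Real.rpow_nonneg (Finset.sum_nonneg fun k _ => Real.rpow_nonneg (hs k).le _) _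
    gcongr

lemma lim_enn {κ : J → Type*} {g : ∀ j, κ j → ENNReal} {r : ℝ} {C : ENNReal}
    (h : ∀ F : ∀ j, Finset (κ j), ∑ j, (∑ k ∈ F j, g j k) ^ r ≤ C) :
    ∑ j, (∑' k, g j k) ^ r ≤ C := by
  have ht : Tendsto (fun F : ∀ j, Finset (κ j) => ∑ j, (∑ k ∈ F j, g j k) ^ r)
      (Filter.pi fun j => (atTop : Filter (Finset (κ j)))) (𝓝 (∑ j, (∑' k, g j k) ^ r)) := by
    refine tendsto_finsetSum _ fun j _ => ?_
    have h1 : Tendsto (fun s : Finset (κ j) => ∑ k ∈ s, g j k) atTop (𝓝 (∑' k, g j k)) := by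
      have := (ENNReal.summable (f := g j)).hasSum
      rwa [HasSum, SummationFilter.unconditional_filter] at this
    exact (((ENNReal.continuous_rpow_const (y := r)).tendsto _).comp h1).comp (Filter.tendsto_eval_pi _ j)
  exact le_of_tendsto ht (Eventually.of_forall h)

lemma lim_enn' {κ : J → Type*} {g : ∀ j, κ j → ENNReal} {r : ℝ} {c C : ENNReal} (hc : c ≠ ⊤)
    (h : ∀ F : ∀ j, Finset (κ j), c * (∑ j, ∑ k ∈ F j, g j k) ^ r ≤ C) :
    c * (∑ j, ∑' k, g j k) ^ r ≤ C := by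
  have ht : Tendsto (fun F : ∀ j, Finset (κ j) => c * (∑ j, ∑ k ∈ F j, g j k) ^ r)
      (Filter.pi fun j => (atTop : Filter (Finset (κ j)))) (𝓝 (c * (∑ j, ∑' k, g j k) ^ r)) := by
    refine ENNReal.Tendsto.const_mul ?_ (Or.inr hc)
    refine Tendsto.comp ((ENNReal.continuous_rpow_const (y := r)).tendsto _) ?_
    refine tendsto_finsetSum _ fun j _ => ?_
    have h1 : Tendsto (fun s : Finset (κ j) => ∑ k ∈ s, g j k) atTop (𝓝 (∑' k, g j k)) := by
      have := (ENNReal.summable (f := g j)).hasSum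
      rwa [HasSum, SummationFilter.unconditional_filter] at this
    exact h1.comp (Filter.tendsto_eval_pi _ j)
  exact le_of_tendsto ht (Eventually.of_forall h)

lemma compact_sum (A : J → H →L[ℂ] H) (hA : ∀ j, IsCompactOperator (A j)) (c : J → ℂ)
    (s : Finset J) : IsCompactOperator (∑ j ∈ s, c j • A j : H →L[ℂ] H) := by
  induction s using Finset.induction_on with
  | empty => simpa using (isCompactOperator_zero : IsCompactOperator (0 : H →L[ℂ] H))
  | insert a s ha ih =>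
    rw [Finset.sum_insert ha]
    exact ((hA a).smul (c a)).add ih

/-- `ℓ^p(S_p) → ℓ^q(S_p)`, `1 < p ≤ 2` -/
theorem G2 {n : ℝ} (hn : 0 ≤ n) {p q : ℝ} (hp : 1 < p) (hp2 : p ≤ 2) (hpq : 1 / p + 1 / q = 1)
    {T : M → J → ℂ} (hT1 : ∀ i j, ‖T i j‖ ≤ 1)
    (hT : ∀ j j', ∑ m, (starRingEnd ℂ) (T m j) * T m j' = if j = j' then (n : ℂ) else 0)
    (A : J → H →L[ℂ] H) (hA : ∀ j, IsCompactOperator (A j)) (hAp : ∀ j, trPow p (A j) ≠ ⊤) :
    ∑ i, trPow p (∑ j, T i j • A j) ^ (q / p) ≤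
      ENNReal.ofReal n * (∑ j, trPow p (A j)) ^ (q / p) := by
  classical
  have hp0 : 0 < p := by linarith
  have hq1 : 1 / q = 1 - 1 / p := by linarith
  have hiq : 0 < 1 / q := by
    rw [hq1, sub_pos, div_lt_one hp0]; exact hp
  have hq0 : 0 < q := by
    by_contra h
    push Not at h
    have : 1 / q ≤ 0 := div_nonpos_of_nonneg_of_nonpos zero_le_one h
    linarith
  have hqp : q / p = q - 1 := by
    have : q * (1 / p) = q * (1 - 1 / q) := by rw [hq1]; ring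
    field_simp at this ⊢; linarith
  have hp1q : (p - 1) * q = p := by
    have := hqp
    field_simp at this; linarith
  have hB : ∀ i, IsCompactOperator (∑ j, T i j • A j : H →L[ℂ] H) := fun i =>
    compact_sum A hA (T i) univ
  choose κ e f σ he hf hσ hBe hsum htr using fun i => sing_data _ (hB i)
  simp only [fun i => htr i p hp0]
  refine lim_enn fun G => ?_
  have hσp : ∀ i k, 0 < σ i k ^ p := fun i k => Real.rpow_pos_of_pos (hσ i k) p
  set X : M → ℝ := fun i => ∑ k ∈ G i, σ i k ^ p with hX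
  have hX0 : ∀ i, 0 ≤ X i := fun i => Finset.sum_nonneg fun k _ => (hσp i k).le
  have hXpos : ∀ i, ∀ k ∈ G i, 0 < X i := fun i k hk =>
    (hσp i k).trans_le (Finset.single_le_sum (f := fun k => σ i k ^ p) (fun k _ => (hσp i k).le) hk)
  set Y := ∑ i, X i ^ (q / p) with hY
  have hY0 : 0 ≤ Y := Finset.sum_nonneg fun i _ => Real.rpow_nonneg (hX0 i) _
  have hv := V1 (β := Σ i, {k // k ∈ G i}) hn hp hp2 hpq hT1 hT A hA hAp (m := fun x => x.1)
    (fib_sigma he) (fib_sigma hf) (t := fun x => X x.1 ^ (q / p - 1) * σ x.1 x.2 ^ (p - 1))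
    (fun x => mul_pos (Real.rpow_pos_of_pos (hXpos x.1 x.2 x.2.2) _)
      (Real.rpow_pos_of_pos (hσ _ _) _))
  -- the left side is `Y`
  have hL : ∑ x : (Σ i, {k // k ∈ G i}), ((X x.1 ^ (q / p - 1) * σ x.1 x.2 ^ (p - 1) : ℝ) : ℂ) *
      ⟪f x.1 x.2, (∑ j, T x.1 j • A j) (e x.1 x.2)⟫_ℂ = (Y : ℂ) := by
    have h1 : ∀ i (k : κ i), ((X i ^ (q / p - 1) * σ i k ^ (p - 1) : ℝ) : ℂ) *
        ⟪f i k, (∑ j, T i j • A j) (e i k)⟫_ℂ = ((X i ^ (q / p - 1) * σ i k ^ p : ℝ) : ℂ) := by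
      intro i k
      rw [hBe, inner_smul_right, inner_self_eq_norm_sq_to_K, (hf i).1 k]
      have : σ i k ^ p = σ i k ^ (p - 1) * σ i k := by
        rw [← Real.rpow_add_one (hσ i k).ne']; congr 1; ring
      rw [this]; push_cast; simp; ring
    have h2 := sum_sigma' G (fun i k => ((X i ^ (q / p - 1) * σ i k ^ (p - 1) : ℝ) : ℂ) *
        ⟪f i k, (∑ j, T i j • A j) (e i k)⟫_ℂ)
    rw [h2, hY, Complex.ofReal_sum]
    refine Finset.sum_congr rfl fun i _ => ?_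
    rw [Finset.sum_congr rfl fun k _ => h1 i k]
    rw [← Complex.ofReal_sum, ← Finset.mul_sum]
    congr 1
    change X i ^ (q / p - 1) * X i = X i ^ (q / p)
    rcases (hX0 i).eq_or_lt with h | h
    · rw [← h, mul_zero, Real.zero_rpow (by positivity)]
    · rw [← Real.rpow_add_one h.ne']; congr 1; ring
  -- the right side
  have hR : ∑ i, (∑ x : (Σ i, {k // k ∈ G i}) with x.1 = i,
      (X x.1 ^ (q / p - 1) * σ x.1 x.2 ^ (p - 1)) ^ q) ^ (p / q) = Y := by
    refine Finset.sum_congr rfl fun i _ => ?_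
    have h1 : ∑ x : (Σ i, {k // k ∈ G i}) with x.1 = i,
        (X x.1 ^ (q / p - 1) * σ x.1 x.2 ^ (p - 1)) ^ q =
        ∑ k ∈ G i, (X i ^ (q / p - 1) * σ i k ^ (p - 1)) ^ q := by
      rw [Finset.sum_filter]
      have h1 := sum_sigma' G (fun i' k => if i' = i then
        (X i' ^ (q / p - 1) * σ i' k ^ (p - 1)) ^ q else 0)
      rw [h1, Finset.sum_eq_single i]
      · simp
      · intro i' _ hi'
        refine Finset.sum_eq_zero fun k _ => by rw [if_neg hi']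
      · intro h; exact absurd (Finset.mem_univ _) h
    have h2 : ∑ k ∈ G i, (X i ^ (q / p - 1) * σ i k ^ (p - 1)) ^ q =
        X i ^ ((q / p - 1) * q) * X i := by
      rw [hX]
      rw [Finset.mul_sum]
      refine Finset.sum_congr rfl fun k _ => ?_
      rw [Real.mul_rpow (Real.rpow_nonneg (hX0 i) _) (Real.rpow_nonneg (hσ i k).le _),
        ← Real.rpow_mul (hX0 i), ← Real.rpow_mul (hσ i k).le, hp1q]
    rw [h1, h2]
    rcases (hX0 i).eq_or_lt with h | h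
    · rw [← h, mul_zero, Real.zero_rpow (by positivity), Real.zero_rpow (by positivity)]
    · rw [← Real.rpow_add_one h.ne', ← Real.rpow_mul h.le]
      congr 1
      rw [hqp]
      field_simp
      have : p * (q - 1) = q := by rw [← hqp]; field_simp
      nlinarith
  simp only at hv
  rw [hL, hR, Complex.norm_real, Real.norm_of_nonneg hY0] at hv
  set P := ∑ j, (trPow p (A j)).toReal with hP
  have hP0 : 0 ≤ P := Finset.sum_nonneg fun j _ => ENNReal.toReal_nonneg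
  have hfin : Y ≤ n * P ^ (q / p) := by
    rcases hY0.eq_or_lt with h | h
    · rw [← h]; positivity
    · have h1 : Y ^ (1 / q) ≤ n ^ (1 / q) * P ^ (1 / p) := by
        have e : Y = Y ^ (1 / q) * Y ^ (1 / p) := by
          rw [← Real.rpow_add h, add_comm (1 / q), hpq, Real.rpow_one]
        have hYp : 0 < Y ^ (1 / p) := Real.rpow_pos_of_pos h _
        by_contra hlt
        push Not at hlt
        have := mul_lt_mul_of_pos_right hlt hYp
        linarith
      have h2 := Real.rpow_le_rpow (Real.rpow_nonneg hY0 _) h1 hq0.le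
      rw [← Real.rpow_mul hY0, Real.mul_rpow (by positivity) (by positivity),
        ← Real.rpow_mul hn, ← Real.rpow_mul hP0, one_div, inv_mul_cancel₀ hq0.ne', Real.rpow_one,
        Real.rpow_one] at h2
      refine h2.trans (le_of_eq ?_)
      congr 2; ring
  have eL : ∑ i, (∑ k ∈ G i, ENNReal.ofReal (σ i k ^ p)) ^ (q / p) = ENNReal.ofReal Y := by
    rw [hY, ENNReal.ofReal_sum_of_nonneg fun i _ => Real.rpow_nonneg (hX0 i) _]
    refine Finset.sum_congr rfl fun i _ => ?_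
    rw [← ENNReal.ofReal_sum_of_nonneg fun k _ => (hσp i k).le,
      ENNReal.ofReal_rpow_of_nonneg (hX0 i) (by positivity)]
  have eR : ENNReal.ofReal n * (∑ j, trPow p (A j)) ^ (q / p) = ENNReal.ofReal (n * P ^ (q / p)) := by
    rw [ENNReal.ofReal_mul hn, ← ENNReal.ofReal_rpow_of_nonneg hP0 (by positivity), hP,
      ENNReal.ofReal_sum_of_nonneg fun j _ => ENNReal.toReal_nonneg]
    congr 2
    exact Finset.sum_congr rfl fun j _ => (ENNReal.ofReal_toReal (hAp j)).symm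
  rw [eL, eR]
  exact ENNReal.ofReal_le_ofReal hfin

/-- the converse inequality for `2 ≤ p` -/
theorem G1 {n : ℝ} (hn : 0 ≤ n) {p q : ℝ} (hp2 : 2 ≤ p) (hpq : 1 / p + 1 / q = 1)
    {T : M → J → ℂ} (hT1 : ∀ i j, ‖T i j‖ ≤ 1)
    (hT : ∀ j j', ∑ m, (starRingEnd ℂ) (T m j) * T m j' = if j = j' then (n : ℂ) else 0)
    (A : J → H →L[ℂ] H) (hA : ∀ j, IsCompactOperator (A j)) :
    ENNReal.ofReal n * (∑ j, trPow p (A j)) ^ (q / p) ≤
      ∑ i, trPow p (∑ j, T i j • A j) ^ (q / p) := by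
  classical
  have hp0 : 0 < p := by linarith
  have hq1 : 1 / q = 1 - 1 / p := by linarith
  have hip : 1 / p ≤ 1 / 2 := one_div_le_one_div_of_le (by norm_num) hp2
  have hiq : 0 < 1 / q := by rw [hq1]; linarith
  have hq0 : 0 < q := by
    by_contra h
    push Not at h
    have : 1 / q ≤ 0 := div_nonpos_of_nonneg_of_nonpos zero_le_one h
    linarith
  have hip0 : 0 < 1 / p := by positivity
  have hq1' : 1 < q := by
    have : 1 / q < 1 := by rw [hq1]; linarith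
    rwa [div_lt_one hq0] at this
  have hq2 : q ≤ 2 := by
    have : 1 / 2 ≤ 1 / q := by rw [hq1]; linarith
    rw [div_le_div_iff₀ (by norm_num) hq0] at this; linarith
  have hqp1 : (p - 1) * q = p := by
    have : q * (1 / p) = q * (1 - 1 / q) := by rw [hq1]; ring
    field_simp at this; linarith
  set B : M → H →L[ℂ] H := fun i => ∑ j, T i j • A j with hBdef
  have hB : ∀ i, IsCompactOperator (B i) := fun i => compact_sum A hA (T i) univ
  by_cases hfinB : ∀ i, trPow p (B i) ≠ ⊤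
  swap
  · push Not at hfinB
    obtain ⟨i, hi⟩ := hfinB
    have : (⊤ : ENNReal) ≤ ∑ i, trPow p (B i) ^ (q / p) := by
      calc (⊤ : ENNReal) = trPow p (B i) ^ (q / p) := by
            rw [hi, ENNReal.top_rpow_of_pos (by positivity)]
        _ ≤ _ := Finset.single_le_sum (f := fun i => trPow p (B i) ^ (q / p))
            (fun _ _ => bot_le) (Finset.mem_univ i)
    rw [top_le_iff] at this
    rw [this]; exact le_top
  choose κ e f σ he hf hσ hAe hsum htr using fun j => sing_data (A j) (hA j)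
  simp only [fun j => htr j p hp0]
  refine lim_enn' ENNReal.ofReal_ne_top fun F => ?_
  have hσp : ∀ i k, 0 < σ i k ^ p := fun i k => Real.rpow_pos_of_pos (hσ i k) p
  set X : ℝ := ∑ j, ∑ k ∈ F j, σ j k ^ p with hX
  have hX0 : 0 ≤ X := Finset.sum_nonneg fun j _ => Finset.sum_nonneg fun k _ => (hσp j k).le
  have hv := V2 (α := Σ j, {k // k ∈ F j}) hn hq1' hq2 (by rw [add_comm]; exact hpq) hT1 hT B hB hfinB
    (c := fun x => x.1) (fib_sigma he) (fib_sigma hf) (s := fun x => σ x.1 x.2 ^ (p - 1))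
    (fun x => Real.rpow_pos_of_pos (hσ _ _) _)
  have hBA : ∀ j (x y : H), ∑ i, T i j * ⟪B i x, y⟫_ℂ = (n : ℂ) * ⟪A j x, y⟫_ℂ := by
    intro j x y
    have h1 : ∀ i, T i j * ⟪B i x, y⟫_ℂ = ∑ j', T i j * ((starRingEnd ℂ) (T i j') * ⟪A j' x, y⟫_ℂ) := by
      intro i
      simp only [hBdef]
      rw [_root_.sum_apply, sum_inner, Finset.mul_sum]
      refine Finset.sum_congr rfl fun j' _ => ?_
      rw [_root_.smul_apply, inner_smul_left]
    simp only [h1]
    rw [Finset.sum_comm, Finset.sum_eq_single j]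
    · have := hT j j
      rw [if_pos rfl] at this
      rw [← this, Finset.sum_mul]
      refine Finset.sum_congr rfl fun i _ => by ring
    · intro j' _ hj'
      have := hT j' j
      rw [if_neg hj'] at this
      have h2 : ∑ i, T i j * ((starRingEnd ℂ) (T i j') * ⟪A j' x, y⟫_ℂ) =
          (∑ i, (starRingEnd ℂ) (T i j') * T i j) * ⟪A j' x, y⟫_ℂ := by
        rw [Finset.sum_mul]
        exact Finset.sum_congr rfl fun i _ => by ring
      rw [h2, this, zero_mul]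
    · intro h; exact absurd (Finset.mem_univ _) h
  have hL : ∑ x : (Σ j, {k // k ∈ F j}), ((σ x.1 x.2 ^ (p - 1) : ℝ) : ℂ) *
      ∑ i, T i x.1 * ⟪B i (e x.1 x.2), f x.1 x.2⟫_ℂ = ((n * X : ℝ) : ℂ) := by
    simp only [hBA]
    have h1 : ∀ j (k : κ j), ((σ j k ^ (p - 1) : ℝ) : ℂ) * ((n : ℂ) * ⟪A j (e j k), f j k⟫_ℂ) =
        ((n * σ j k ^ p : ℝ) : ℂ) := by
      intro j k
      rw [hAe, inner_smul_left, inner_self_eq_norm_sq_to_K, (hf j).1 k, Complex.conj_ofReal]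
      have : σ j k ^ p = σ j k ^ (p - 1) * σ j k := by
        rw [← Real.rpow_add_one (hσ j k).ne']; congr 1; ring
      rw [this]; push_cast; simp; ring
    have h2 := sum_sigma' F (fun j k => ((σ j k ^ (p - 1) : ℝ) : ℂ) * ((n : ℂ) *
      ⟪A j (e j k), f j k⟫_ℂ))
    rw [h2]
    simp only [h1]
    rw [hX]
    simp only [← Complex.ofReal_sum, ← Finset.mul_sum]
  have hS : ∑ x : (Σ j, {k // k ∈ F j}), (σ x.1 x.2 ^ (p - 1)) ^ q = X := by
    have h2 := sum_sigma' F (fun j k => (σ j k ^ (p - 1)) ^ q)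
    rw [h2, hX]
    refine Finset.sum_congr rfl fun j _ => Finset.sum_congr rfl fun k _ => ?_
    rw [← Real.rpow_mul (hσ j k).le, hqp1]
  rw [hL, hS, Complex.norm_real, Real.norm_of_nonneg (mul_nonneg hn hX0)] at hv
  set R := ∑ i, (trPow p (B i)).toReal ^ (q / p) with hR
  have hR0 : 0 ≤ R := Finset.sum_nonneg fun i _ => Real.rpow_nonneg ENNReal.toReal_nonneg _
  have hfin : n * X ^ (q / p) ≤ R := by
    rcases hn.eq_or_lt with h | hn0
    · rw [← h, zero_mul]; exact hR0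
    rcases hX0.eq_or_lt with h | h
    · rw [← h, Real.zero_rpow (by positivity), mul_zero]; exact hR0
    · have h1 : n ^ (1 / q) * X ^ (1 / p) ≤ R ^ (1 / q) := by
        have e1 : X = X ^ (1 / q) * X ^ (1 / p) := by
          rw [← Real.rpow_add h, add_comm (1 / q), hpq, Real.rpow_one]
        have e2 : n = n ^ (1 / q) * n ^ (1 / p) := by
          rw [← Real.rpow_add hn0, add_comm (1 / q), hpq, Real.rpow_one]
        have hpos : 0 < n ^ (1 / p) * X ^ (1 / q) := by positivity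
        by_contra hlt
        push Not at hlt
        have h3 := mul_lt_mul_of_pos_left hlt hpos
        have h4 : n ^ (1 / p) * X ^ (1 / q) * (n ^ (1 / q) * X ^ (1 / p)) = n * X := by
          calc n ^ (1 / p) * X ^ (1 / q) * (n ^ (1 / q) * X ^ (1 / p))
              = (n ^ (1 / q) * n ^ (1 / p)) * (X ^ (1 / q) * X ^ (1 / p)) := by ring
            _ = n * X := by rw [← e1, ← e2]
        linarith
      have h2 := Real.rpow_le_rpow (by positivity) h1 hq0.le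
      rw [← Real.rpow_mul hR0, Real.mul_rpow (by positivity) (by positivity),
        ← Real.rpow_mul hn, ← Real.rpow_mul hX0, one_div, inv_mul_cancel₀ hq0.ne', Real.rpow_one,
        Real.rpow_one] at h2
      refine le_trans (le_of_eq ?_) h2
      congr 2; ring
  have eL : ENNReal.ofReal n * (∑ j, ∑ k ∈ F j, ENNReal.ofReal (σ j k ^ p)) ^ (q / p) =
      ENNReal.ofReal (n * X ^ (q / p)) := by
    rw [ENNReal.ofReal_mul hn, ← ENNReal.ofReal_rpow_of_nonneg hX0 (by positivity), hX,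
      ENNReal.ofReal_sum_of_nonneg fun j _ => Finset.sum_nonneg fun k _ => (hσp j k).le]
    congr 2
    exact Finset.sum_congr rfl fun j _ =>
      (ENNReal.ofReal_sum_of_nonneg fun k _ => (hσp j k).le).symm
  have eR : ∑ i, trPow p (B i) ^ (q / p) = ENNReal.ofReal R := by
    rw [hR, ENNReal.ofReal_sum_of_nonneg fun i _ => Real.rpow_nonneg ENNReal.toReal_nonneg _]
    refine Finset.sum_congr rfl fun i _ => ?_
    rw [← ENNReal.ofReal_rpow_of_nonneg ENNReal.toReal_nonneg (by positivity),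
      ENNReal.ofReal_toReal (hfinB i)]
  rw [eL, eR]
  exact ENNReal.ofReal_le_ofReal hfin

/-- the index set of the sum and of the differences -/
abbrev Idx (n : ℕ) : Type := Option {x : Fin n × Fin n // x.1 < x.2}

/-- the coefficients of the sum and of the differences -/
def Tc (n : ℕ) : Idx n → Fin n → ℂ
  | none, _ => 1
  | some x, j => (if j = x.1.1 then 1 else 0) - (if j = x.1.2 then 1 else 0)

lemma Tc_norm (n : ℕ) (i : Idx n) (j : Fin n) : ‖Tc n i j‖ ≤ 1 := by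
  rcases i with _ | ⟨⟨a, b⟩, hab⟩
  · simp [Tc]
  · have hne : a ≠ b := ne_of_lt hab
    by_cases h1 : j = a
    · subst h1; simp [Tc, hne]
    · by_cases h2 : j = b
      · subst h2; simp [Tc, h1]
      · simp [Tc, h1, h2]

lemma sum_pairs {G : Type*} [AddCommMonoid G] (n : ℕ) (g : Fin n × Fin n → G) :
    ∑ x : {x : Fin n × Fin n // x.1 < x.2}, g x = ∑ x with x.1 < x.2, g x :=
  (Finset.sum_subtype _ (by simp) g).symm

lemma sum_all (n : ℕ) (g : Fin n × Fin n → ℂ) (hs : ∀ a b, g (a, b) = g (b, a))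
    (hd : ∀ a, g (a, a) = 0) : ∑ x, g x = 2 * ∑ x with x.1 < x.2, g x := by
  have h1 : ∑ x, g x = ∑ x with x.1 < x.2, g x + ∑ x with ¬ x.1 < x.2, g x :=
    (Finset.sum_filter_add_sum_filter_not _ _ _).symm
  have h2 : ∑ x with ¬ x.1 < x.2, g x = ∑ x with x.2 < x.1, g x := by
    rw [Finset.sum_filter, Finset.sum_filter]
    refine Finset.sum_congr rfl ?_
    rintro ⟨a, b⟩ _
    simp only
    rcases lt_trichotomy a b with h | h | h
    · rw [if_neg (not_not.2 h), if_neg (not_lt.2 h.le)]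
    · subst h; simp [hd]
    · rw [if_pos (not_lt.2 h.le), if_pos h]
  have h3 : ∑ x with x.2 < x.1, g x = ∑ x with x.1 < x.2, g x := by
    rw [Finset.sum_filter, Finset.sum_filter]
    rw [Fintype.sum_prod_type, Fintype.sum_prod_type_right]
    refine Finset.sum_congr rfl fun x _ => Finset.sum_congr rfl fun y _ => ?_
    simp only
    rw [hs x y]
  rw [h1, h2, h3]; ring

lemma Tc_orth (n : ℕ) (j j' : Fin n) :
    ∑ m, (starRingEnd ℂ) (Tc n m j) * Tc n m j' = if j = j' then (((n : ℕ) : ℝ) : ℂ) else 0 := by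
  rw [Fintype.sum_option]
  have h0 : (starRingEnd ℂ) (Tc n none j) * Tc n none j' = 1 := by simp [Tc]
  have h1 : ∑ x : {x : Fin n × Fin n // x.1 < x.2}, (starRingEnd ℂ) (Tc n (some x) j) * Tc n (some x) j' =
      ∑ x with x.1 < x.2, (fun x : Fin n × Fin n =>
        (((if j = x.1 then 1 else 0) - (if j = x.2 then 1 else 0)) *
          ((if j' = x.1 then 1 else 0) - (if j' = x.2 then 1 else 0)) : ℂ)) x := by
    rw [← sum_pairs]
    refine Finset.sum_congr rfl ?_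
    rintro ⟨⟨a, b⟩, hab⟩ _
    simp only [Tc, map_sub]
    congr 2
    · split_ifs <;> simp
    · split_ifs <;> simp
  have h2 := sum_all n (fun x : Fin n × Fin n =>
        (((if j = x.1 then 1 else 0) - (if j = x.2 then 1 else 0)) *
          ((if j' = x.1 then 1 else 0) - (if j' = x.2 then 1 else 0)) : ℂ))
    (fun a b => by ring) (fun a => by ring)
  have h3 : ∑ x : Fin n × Fin n, (((if j = x.1 then 1 else 0) - (if j = x.2 then 1 else 0)) *
          ((if j' = x.1 then 1 else 0) - (if j' = x.2 then 1 else 0)) : ℂ) =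
      2 * ((if j = j' then (n : ℂ) else 0) - 1) := by
    rw [Fintype.sum_prod_type]
    have e : ∀ a b : Fin n, ((((if j = a then 1 else 0) - (if j = b then 1 else 0)) *
          ((if j' = a then 1 else 0) - (if j' = b then 1 else 0)) : ℂ)) =
        (if j = a then (if j' = a then 1 else 0) else 0) - (if j = a then (if j' = b then 1 else 0) else 0)
        - (if j = b then (if j' = a then 1 else 0) else 0) + (if j = b then (if j' = b then 1 else 0) else 0) := by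
      intro a b
      split_ifs <;> ring
    simp only [e]
    simp only [Finset.sum_add_distrib, Finset.sum_sub_distrib]
    have S1 : ∑ a : Fin n, ∑ b : Fin n, (if j = a then (if j' = a then (1:ℂ) else 0) else 0) =
        if j = j' then (n : ℂ) else 0 := by
      rw [Finset.sum_eq_single j (fun b _ hb => by simp [Ne.symm hb])
        (fun h => absurd (Finset.mem_univ _) h)]
      by_cases h : j = j'
      · subst h; simp
      · simp [h, Ne.symm h]
    have S2 : ∑ a : Fin n, ∑ b : Fin n, (if j = a then (if j' = b then (1:ℂ) else 0) else 0) = 1 := by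
      rw [Finset.sum_eq_single j (fun b _ hb => by simp [Ne.symm hb])
        (fun h => absurd (Finset.mem_univ _) h)]
      simp
    have S3 : ∑ a : Fin n, ∑ b : Fin n, (if j = b then (if j' = a then (1:ℂ) else 0) else 0) = 1 := by
      rw [Finset.sum_comm]; exact S2
    have S4 : ∑ a : Fin n, ∑ b : Fin n, (if j = b then (if j' = b then (1:ℂ) else 0) else 0) =
        if j = j' then (n : ℂ) else 0 := by
      rw [Finset.sum_comm]; exact S1
    rw [S1, S2, S3, S4]; ring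
  have h4 : ∑ x : Fin n × Fin n with x.1 < x.2,
      (((if j = x.1 then 1 else 0) - (if j = x.2 then 1 else 0)) *
          ((if j' = x.1 then 1 else 0) - (if j' = x.2 then 1 else 0)) : ℂ) =
      (if j = j' then (n : ℂ) else 0) - 1 := by
    have := h2.symm.trans h3
    exact mul_left_cancel₀ two_ne_zero this
  rw [h0, h1]
  simp only
  rw [h4]
  push_cast
  ring

lemma sum_Tc_none (n : ℕ) (A : Fin n → H →L[ℂ] H) : ∑ j, Tc n none j • A j = ∑ j, A j := by
  simp [Tc]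

lemma sum_Tc_some (n : ℕ) (A : Fin n → H →L[ℂ] H) (x : {x : Fin n × Fin n // x.1 < x.2}) :
    ∑ j, Tc n (some x) j • A j = A x.1.1 - A x.1.2 := by
  simp [Tc, sub_smul, Finset.sum_sub_distrib]

/-- The Schatten `p`-(quasi-)norm `(∑ s_i(A)^p)^(1/p)` of a compact operator, in `[0, ∞]`. -/
noncomputable def schatten (p : ℝ) (A : H →L[ℂ] H) : ENNReal := trPow p A ^ (1 / p)

/-- The Schatten class `S_p`: compact operators with finite Schatten `p`-norm. -/
def InSchatten (p : ℝ) (A : H →L[ℂ] H) : Prop := IsCompactOperator A ∧ schatten p A < ⊤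

lemma schatten_rpow {p : ℝ} (r : ℝ) (A : H →L[ℂ] H) :
    schatten p A ^ r = trPow p A ^ (r / p) := by
  rw [schatten, ← ENNReal.rpow_mul]; congr 1; ring

/-- **Clarkson-type inequalities for `n`-tuples of operators.** -/
theorem result (n : ℕ) (_hn : 2 ≤ n) (p q : ℝ) (hp : 1 < p) (hpq : 1 / p + 1 / q = 1)
    (A : Fin n → H →L[ℂ] H) (hA : ∀ j, InSchatten p (A j)) :
    (2 ≤ p → (n : ENNReal) * (∑ j, schatten p (A j) ^ p) ^ (q / p) ≤
      schatten p (∑ j, A j) ^ q +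
        ∑ x : Fin n × Fin n with x.1 < x.2, schatten p (A x.1 - A x.2) ^ q) ∧
    (p ≤ 2 → schatten p (∑ j, A j) ^ q +
        ∑ x : Fin n × Fin n with x.1 < x.2, schatten p (A x.1 - A x.2) ^ q ≤
      (n : ENNReal) * (∑ j, schatten p (A j) ^ p) ^ (q / p)) := by
  have hp0 : 0 < p := by linarith
  have hAc : ∀ j, IsCompactOperator (A j) := fun j => (hA j).1
  have hAp : ∀ j, trPow p (A j) ≠ ⊤ := by
    intro j h
    have := (hA j).2
    rw [schatten, h, ENNReal.top_rpow_of_pos (by positivity)] at this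
    exact lt_irrefl _ this
  have e1 : ∑ j, schatten p (A j) ^ p = ∑ j, trPow p (A j) := by
    refine Finset.sum_congr rfl fun j _ => ?_
    rw [schatten_rpow, div_self hp0.ne', ENNReal.rpow_one]
  have e2 : schatten p (∑ j, A j) ^ q +
        ∑ x : Fin n × Fin n with x.1 < x.2, schatten p (A x.1 - A x.2) ^ q =
      ∑ i, trPow p (∑ j, Tc n i j • A j) ^ (q / p) := by
    rw [Fintype.sum_option, sum_Tc_none]
    simp only [sum_Tc_some, schatten_rpow]
    rw [sum_pairs n (fun x => trPow p (A x.1 - A x.2) ^ (q / p))]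
  have e3 : (n : ENNReal) = ENNReal.ofReal (n : ℝ) := (ENNReal.ofReal_natCast n).symm
  rw [e1, e2, e3]
  exact ⟨fun hp2 => G1 (Nat.cast_nonneg n) hp2 hpq (Tc_norm n) (Tc_orth n) A hAc,
    fun hp2 => G2 (Nat.cast_nonneg n) hp hp2 hpq (Tc_norm n) (Tc_orth n) A hAc hAp⟩

end Op
end Pool.Agent.Results.MP_5deb6a_an.ClarksonTuples
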